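import Pool.Agent.Q138.MapStab.NotFG

/-!
# MP_988b7a_gt, Q1: `MCG(f)` need not have finite homological type

`Σ` = the sphere with four holes, `r = 1`, `f : Σ → S¹` of degrees `0, 1, -1` on three of the
boundary circles (and `0` on the fourth).  Already `H_1(MCG(f); ℤ)` is not finitely generated.
-/

namespace Pool.Agent.Results.MP_988b7a_gt.NotFiniteHomologicalType

open Pool.Agent.Q138.MapStab

/-- The question of Q1 has a negative answer: not every stabiliser `MCG(f)` has finite
homological type. Moreover there is a map `f` from the sphere with four holes to the circle for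
which `H_1(MCG(f); ℤ)` is not a finitely generated abelian group. -/
theorem result :
    (¬ ∀ (g b r : ℕ) (f : MapClass g b r), FiniteHomologicalType (Stab f)) ∧
      ∃ f : MapClass 0 3 1, ¬ Module.Finite ℤ (groupHomology (Rep.trivial ℤ (Stab f) ℤ) 1) := by
  refine ⟨fun h => ?_, f0, not_finite_H1⟩
  refine not_finite_H1 ((h 0 3 1 f0).2 (Rep.trivial ℤ (Stab f0) ℤ) ?_ 1)
  exact (inferInstance : Module.Finite ℤ ℤ)

end Pool.Agent.Results.MP_988b7a_gt.NotFiniteHomologicalType
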